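import Pool.Agent.Lib.MP_c7af3c_ag.T2.Plane

/-!
# MP_c7af3c_ag, project T2: the plane type (B20), module statements
See PaperB.md; the definitions are in Plane.lean.
Each owner proves `theorem xyz : XyzStatement` in T2/Hnn/Xyz.lean (namespace Pool.Agent.T2.Hnn).
-/

set_option autoImplicit false

namespace Pool.Agent.T2

open MvPolynomial Pool.Agent.Gen Pool.Agent.Sharp Pool.Agent.Edge
open Pool.Agent.Sharp.H75 (dco DG af)
open Pool.Agent.Edge.H65 (ssub)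

/-! ### over `Ω` -/

/-- Row ONTO: the cubic block is not onto. -/
def OntoStatement : Prop := ∀ (Ω : Type) [Field Ω] [CharZero Ω] (k : Subfield Ω) (Γ : Type)
  [LinearOrderedCommGroupWithZero Γ] (S : Sizes Ω k Γ) (D : D6 Ω) (x : Fin 5 → Ω)
  (t : Fin 3 → Fin 5) (P : Fin 3 → Fin 5 → Ω), Sit S D x (t 0) → Pl D x t P →
  R20 (R6 D x t P) → ∀ B : MvPolynomial (Fin 3) ℤ, B.IsHomogeneous 3 →
    R6 D x t P ⊔ mulS (MvPolynomial.map (Int.castRingHom Ω) B) 3 ≠ S3 Ω 6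

/-- Row CLOSE: the derivations extend to the algebraic closure. -/
def CloseStatement : Prop := ∀ (Ω : Type) [Field Ω] [CharZero Ω] (n c : ℕ) (d : Fin c → ℕ)
  (D : DSys Ω n c d), ∃ D' : DSys (AlgebraicClosure Ω) n c d,
    (∀ m, D'.F m = MvPolynomial.map (algebraMap Ω (AlgebraicClosure Ω)) (D.F m)) ∧
    (∀ m I f, D'.del m I (algebraMap Ω (AlgebraicClosure Ω) f) =
      algebraMap Ω (AlgebraicClosure Ω) (D.del m I f)) ∧
    (Lines.Comm D → Lines.Comm D')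

/-- Row LIFT: passage to the algebraic closure. -/
def LiftStatement : Prop := CloseStatement → ∀ (Ω : Type) [Field Ω] [CharZero Ω] (k : Subfield Ω)
  (D : D6 Ω) (x : Fin 5 → Ω) (t : Fin 3 → Fin 5) (P : Fin 3 → Fin 5 → Ω), PlA k D x t P →
  (∀ B : MvPolynomial (Fin 3) ℤ, B.IsHomogeneous 3 →
    R6 D x t P ⊔ mulS (MvPolynomial.map (Int.castRingHom Ω) B) 3 ≠ S3 Ω 6) →
  ∃ (K : Type) (_ : Field K) (_ : CharZero K) (_ : IsAlgClosed K) (k' : Subfield K) (D' : D6 K)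
    (x' : Fin 5 → K) (P' : Fin 3 → Fin 5 → K), PlA k' D' x' t P' ∧
    ∀ B : MvPolynomial (Fin 3) ℤ, B.IsHomogeneous 3 →
      R6 D' x' t P' ⊔ mulS (MvPolynomial.map (Int.castRingHom K) B) 3 ≠ S3 K 6

/-! ### pure algebra -/

/-- Row DENS: from integers to all cubics. -/
def DensStatement : Prop := ∀ (K : Type) [Field K] [CharZero K]
  (R : Submodule K (MvPolynomial (Fin 3) K)), R ≤ S3 K 6 →
  (∀ B : MvPolynomial (Fin 3) ℤ, B.IsHomogeneous 3 →
    R ⊔ mulS (MvPolynomial.map (Int.castRingHom K) B) 3 ≠ S3 K 6) →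
  ∀ B : MvPolynomial (Fin 3) K, B.IsHomogeneous 3 → R ⊔ mulS B 3 ≠ S3 K 6

/-- Row LEMC (lemma C). -/
def LemcStatement : Prop := ∀ (K : Type) [Field K] [CharZero K]
  (R : Submodule K (MvPolynomial (Fin 3) K)), R20 R →
  (∀ B : MvPolynomial (Fin 3) K, B.IsHomogeneous 3 → R ⊔ mulS B 3 ≠ S3 K 6) →
  ∃ q : MvPolynomial (Fin 3) K, q.IsHomogeneous 2 ∧ q ≠ 0 ∧ mulS q 4 ≤ R

/-- Row UNIQ: the conic is unique. -/
def UniqStatement : Prop := ∀ (K : Type) [Field K] [CharZero K]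
  (R : Submodule K (MvPolynomial (Fin 3) K)), R20 R → ∀ q q' : MvPolynomial (Fin 3) K,
  q.IsHomogeneous 2 → q'.IsHomogeneous 2 → q ≠ 0 → mulS q 4 ≤ R → mulS q' 4 ≤ R →
  ∃ c, q' = C c * q

/-- Row QINTB: the product lemma. -/
def QintbStatement : Prop := UniqStatement → ∀ (K : Type) [Field K] [CharZero K] [IsAlgClosed K]
  (R : Submodule K (MvPolynomial (Fin 3) K)), R20 R → ∀ q : MvPolynomial (Fin 3) K,
  q.IsHomogeneous 2 → q ≠ 0 → mulS q 4 ≤ R →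
  ∀ β : MvPolynomial (Fin 3) K →ₗ[K] MvPolynomial (Fin 3) K,
  (∀ A, A.IsHomogeneous 4 → (β A).IsHomogeneous 2) →
  (∀ A A', A.IsHomogeneous 4 → A'.IsHomogeneous 4 → β A * A' - β A' * A ∈ R) →
  ∀ A, A.IsHomogeneous 4 → ∃ c, β A = C c * q

/-- Row QCL: conics with a point over an algebraically closed field; the point becomes
`(1, 0, 0)`. -/
def QclStatement : Prop := ∀ (K : Type) [Field K] [CharZero K] [IsAlgClosed K]
  (q : MvPolynomial (Fin 3) K) (y : Fin 3 → K), q.IsHomogeneous 2 → q ≠ 0 → y ≠ 0 →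
  eval y q = 0 → ∃ g : Fin 3 → Fin 3 → K, LinearIndependent K g ∧ y = g 0 ∧
    ∃ a : K, a ≠ 0 ∧ (ssub g q = C a * (X 0 * X 2 - X 1 ^ 2) ∨ ssub g q = C a * (X 0 * X 2) ∨
      ssub g q = C a * (X 1 * X 2) ∨ ssub g q = C a * X 2 ^ 2)

/-- Rows NORM1, NORM2, NORM3, NORM4: `q0` is `X 0 * X 2 - X 1 ^ 2`, `X 0 * X 2`, `X 1 * X 2`,
`X 2 ^ 2`. -/
def NormqStatement (q0 : MvPolynomial (Fin 3) ℤ) : Prop := ∀ (K : Type) [Field K] [CharZero K]
  [IsAlgClosed K] (f : MvPolynomial (Fin 3) K), f.IsHomogeneous 6 →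
  coeff (Finsupp.single 0 6) f = 0 →
  (∀ z : MvPolynomial (Fin 3) K, z.IsHomogeneous 1 → z ≠ 0 → f ∉ mulS z 5) →
  ∀ M : Submodule K (Fin 3 → Fin 3 → K),
  Stb (MvPolynomial.map (Int.castRingHom K) q0) f ![1, 0, 0] M →
  ∃ (g : Fin 3 → Fin 3 → K) (f0 : MvPolynomial (Fin 3) ℤ) (y0 : Fin 3 → ℤ) (a b : K),
    Cfg (MvPolynomial.map (Int.castRingHom K) q0) f ![1, 0, 0] g q0 f0 y0 a b

/-- Row NORM: normal forms. -/
def NormStatement : Prop := QclStatement → NormqStatement (X 0 * X 2 - X 1 ^ 2) →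
  NormqStatement (X 0 * X 2) → NormqStatement (X 1 * X 2) → NormqStatement (X 2 ^ 2) →
  ∀ (K : Type) [Field K] [CharZero K] [IsAlgClosed K] (q f : MvPolynomial (Fin 3) K)
  (y : Fin 3 → K), q.IsHomogeneous 2 → q ≠ 0 → f.IsHomogeneous 6 → y ≠ 0 → eval y q = 0 →
  eval y f = 0 → (∀ z : MvPolynomial (Fin 3) K, z.IsHomogeneous 1 → z ≠ 0 → f ∉ mulS z 5) →
  ∀ M : Submodule K (Fin 3 → Fin 3 → K), Stb q f y M →
  ∃ (g : Fin 3 → Fin 3 → K) (q0 f0 : MvPolynomial (Fin 3) ℤ) (y0 : Fin 3 → ℤ) (a b : K),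
    Cfg q f y g q0 f0 y0 a b

/-! ### the geometry -/

/-- Row PCAN: the plane is canonical. -/
def PcanStatement : Prop := ∀ (K : Type) [Field K] [CharZero K] (D : D6 K) (x : Fin 5 → K)
  (t : Fin 3 → Fin 5) (P : Fin 3 → Fin 5 → K), Pl D x t P → ∀ E : Fin 5 → Fin 5 → K,
  (∀ f, D.V x 0 (af E (D.F 0)) f + ∑ q, E f q * x q = (∑ q, E (t 0) q * x q) * x f) ∧
  ∀ i f, D.V (P i) 0 (af E (D.F 0)) f + ∑ q, E f q * P i q = ∑ j, mat t P E j i * P j f

/-- Row PHI. -/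
def PhiStatement : Prop := PcanStatement → ∀ (K : Type) [Field K] [CharZero K] (D : D6 K)
  (x : Fin 5 → K) (t : Fin 3 → Fin 5) (P : Fin 3 → Fin 5 → K), Pl D x t P → R20 (R6 D x t P)

/-- Row QINT: the forms with restriction in `q S^4` do not move the conic. -/
def QintStatement : Prop := UniqStatement → QintbStatement → ∀ (K : Type) [Field K] [CharZero K]
  [IsAlgClosed K] (D : D6 K) (x : Fin 5 → K) (t : Fin 3 → Fin 5) (P : Fin 3 → Fin 5 → K),
  Pl D x t P → R20 (R6 D x t P) → ∀ q : MvPolynomial (Fin 3) K, q.IsHomogeneous 2 → q ≠ 0 →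
  mulS q 4 ≤ R6 D x t P → ∀ G : MvPolynomial (Fin 5) K, G.IsHomogeneous 6 →
  ssub P G ∈ mulS q 4 → ∃ c, dco (der D G) q = C c * q

/-- Row QEQ: equivariance of the conic. -/
def QeqStatement : Prop := UniqStatement → PcanStatement → ∀ (K : Type) [Field K] [CharZero K]
  (D : D6 K) (x : Fin 5 → K) (t : Fin 3 → Fin 5) (P : Fin 3 → Fin 5 → K),
  Pl D x t P → R20 (R6 D x t P) → ∀ q : MvPolynomial (Fin 3) K, q.IsHomogeneous 2 → q ≠ 0 →
  mulS q 4 ≤ R6 D x t P → ∀ E : Fin 5 → Fin 5 → K,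
  ∃ c, dco (der D (af E (D.F 0))) q - af (mat t P E) q = C c * q

/-- Row STAB: the space `kk` has dimension at least two and fixes the plane, the point, the
conic. -/
def StabStatement : Prop := UniqStatement → QintbStatement → PcanStatement → QintStatement →
  QeqStatement → ∀ (K : Type) [Field K] [CharZero K]
  [IsAlgClosed K] (D : D6 K) (x : Fin 5 → K) (t : Fin 3 → Fin 5) (P : Fin 3 → Fin 5 → K),
  Pl D x t P → R20 (R6 D x t P) → ∀ q : MvPolynomial (Fin 3) K, q.IsHomogeneous 2 → q ≠ 0 →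
  mulS q 4 ≤ R6 D x t P → 2 ≤ Module.finrank K (kk D P q) ∧ ∀ e ∈ kk D P q,
    ∃ L : Fin 3 → Fin 3 → K, (∀ i f, e i f = ∑ j, L j i * P j f) ∧
      (∃ c, ∀ j, ∑ i, L j i * x (t i) = c * x (t j)) ∧ (∃ c, af L q = C c * q) ∧
      af L (ssub P (D.F 0)) ∈ mulS q 4

/-- Row RIGID. -/
def RigidStatement : Prop := ∀ (K : Type) [Field K] [CharZero K] (k : Subfield K) (D : D6 K)
  (x : Fin 5 → K) (t : Fin 3 → Fin 5) (P : Fin 3 → Fin 5 → K), PlA k D x t P →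
  ∀ q : MvPolynomial (Fin 3) K, q.IsHomogeneous 2 → q ≠ 0 →
  (∀ e ∈ kk D P q, ∃ c, ∀ f, ∑ i, x (t i) * e i f = c * x f) →
  ∀ (g : Fin 3 → Fin 3 → K) (q0 f0 : MvPolynomial (Fin 3) ℤ) (y0 : Fin 3 → ℤ) (a b : K),
    ¬ Cfg q (ssub P (D.F 0)) (fun i => x (t i)) g q0 f0 y0 a b

/-- Row NOLN: no line in the sextic. -/
def NolnStatement : Prop := ∀ (K : Type) [Field K] [CharZero K] (D : D6 K) (x y : Fin 5 → K),
  LinearIndependent K ![x, y] → lineP (D.F 0) x y ≠ 0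

/-- Row ASMB: the plane type is impossible. -/
def PlaneTypeStatement : Prop := ∀ (Ω : Type) [Field Ω] [CharZero Ω] (k : Subfield Ω) (Γ : Type)
  [LinearOrderedCommGroupWithZero Γ] (S : Sizes Ω k Γ) (D : D6 Ω) (x : Fin 5 → Ω)
  (t : Fin 3 → Fin 5) (P : Fin 3 → Fin 5 → Ω), Sit S D x (t 0) → Pl D x t P → False

def AsmbStatement : Prop := OntoStatement → CloseStatement → LiftStatement → DensStatement →
  LemcStatement → UniqStatement → QintbStatement → NormStatement → QclStatement →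
  NormqStatement (X 0 * X 2 - X 1 ^ 2) → NormqStatement (X 0 * X 2) →
  NormqStatement (X 1 * X 2) → NormqStatement (X 2 ^ 2) → PcanStatement → PhiStatement →
  QintStatement → QeqStatement → StabStatement → RigidStatement → NolnStatement →
  PlaneTypeStatement

end Pool.Agent.T2
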