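import Pool.Agent.Lib.MP_c7af3c_ag.T2.Base
import Pool.Agent.Lib.MP_c7af3c_ag.T2.IfaceB
import Pool.Agent.Lib.MP_c7af3c_ag.T2.H49.Nopencil
import Pool.Agent.Lib.MP_c7af3c_ag.EDGE.C2.Iface

/-!
# MP_c7af3c_ag, project T2 (sextic threefolds): module statements
See T2/Paper.md. Each owner proves `theorem xyz : XyzStatement` in T2/Hnn/Xyz.lean (namespace
Pool.Agent.T2.Hnn). The statements do not depend on each other.
-/

set_option autoImplicit false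

namespace Pool.Agent.T2

open MvPolynomial Pool.Agent.Gen Pool.Agent.Sharp Pool.Agent.Edge

/-! ### (A) sizes -/

/-- Module LOC: the size of the determinant of three columns `E x + V(G)`. -/
def LocStatement : Prop := ∀ (L : Type) [Field L] (Γ : Type) [LinearOrderedCommGroupWithZero Γ]
  (D : D6 L) (x : Fin (4 + 1) → L) (j0 : Fin (4 + 1)), x j0 = 1 → eval x (D.F 0) = 0 →
  ∀ (v : Valuation L Γ) (M : Γ), 1 ≤ M →
  (∀ I : Fin (4 + 1) →₀ ℕ, I.degree = 6 → ∀ f, v f ≤ 1 → v (D.del 0 I f) ≤ M) →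
  ∀ (s r : ℕ) (ε : (Unit ⊕ (Fin s ⊕ Fin r)) ⊕ Fin 1 ≃ Fin (4 + 1))
    (E : Fin s ⊕ Fin r → Matrix (Fin (4 + 1)) (Fin (4 + 1)) L)
    (G : Fin s ⊕ Fin r → MvPolynomial (Fin (4 + 1)) L) (g : Fin s ⊕ Fin r → Γ)
    (η : Fin s → Fin (4 + 1) → L) (w : Fin r → Fin (4 + 1) → L),
  (∀ a, (G a).IsHomogeneous 6) → (∀ a p q, v (E a p q) ≤ g a) → (∀ a I, v (coeff I (G a)) ≤ g a) →
  (∀ a, Sum.elim η w a = (E a).mulVec x + D.V x 0 (G a)) →
  (∀ a, ∑ p, eval x (pderiv p (D.F 0)) * Sum.elim η w a p = 0) →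
  ∀ j, v (dt D x j0 ε η w) * v (x j) ≤ M ^ 4 * ∏ a, g a

/-- Module TAUB: the contracted determinants of one block are in `k`. -/
def TaubStatement : Prop := LocStatement → ∀ (Ω : Type) [Field Ω] [CharZero Ω] (k : Subfield Ω)
  (Γ : Type) [LinearOrderedCommGroupWithZero Γ] (S : Sizes Ω k Γ) (D : D6 Ω)
  (x : Fin (4 + 1) → Ω) (j0 : Fin (4 + 1)), Sit S D x j0 →
  ∀ (s r : ℕ) (ε : (Unit ⊕ (Fin s ⊕ Fin r)) ⊕ Fin 1 ≃ Fin (4 + 1))
    (η : Fin s → Fin (4 + 1) → Ω), (∀ a, Bc D x k (η a)) →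
  ∀ A : MvPolynomial (Fin (4 + 1)) Ω, Fk k 5 A → ∀ i, tauB D x j0 ε η A i ∈ k

/-- Module HULL: the hull over `k` has dimension at least 3. -/
def HullStatement : Prop := ∀ (Ω : Type) [Field Ω] [CharZero Ω] (k : Subfield Ω)
  (Γ : Type) [LinearOrderedCommGroupWithZero Γ] (S : Sizes Ω k Γ) (D : D6 Ω)
  (x : Fin (4 + 1) → Ω) (j0 : Fin (4 + 1)), Sit S D x j0 →
  ∃ (m : ℕ) (t : Fin (m + 1) → Fin (4 + 1)) (P : Fin (m + 1) → Fin (4 + 1) → Ω),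
    2 ≤ m ∧ Hull k x j0 t P

/-- Module W2: there are at most two independent vectors among `x` and the `W(p,q)`. -/
def W2Statement : Prop := LocStatement → TaubStatement → HullStatement →
  ∀ (Ω : Type) [Field Ω] [CharZero Ω] (k : Subfield Ω)
  (Γ : Type) [LinearOrderedCommGroupWithZero Γ] (S : Sizes Ω k Γ) (D : D6 Ω)
  (x : Fin (4 + 1) → Ω) (j0 : Fin (4 + 1)), Sit S D x j0 →
  Module.finrank Ω (Wsp D x) ≤ 2

/-- Module VANB: a block which is not degenerate. -/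
def VanbStatement : Prop := LocStatement → TaubStatement →
  ∀ (Ω : Type) [Field Ω] [CharZero Ω] (k : Subfield Ω)
  (Γ : Type) [LinearOrderedCommGroupWithZero Γ] (S : Sizes Ω k Γ) (D : D6 Ω)
  (x : Fin (4 + 1) → Ω) (j0 : Fin (4 + 1)), Sit S D x j0 →
  ∀ (s r : ℕ) (ε : (Unit ⊕ (Fin s ⊕ Fin r)) ⊕ Fin 1 ≃ Fin (4 + 1))
    (η : Fin s → Fin (4 + 1) → Ω), 1 ≤ r → (∀ a, Bc D x k (η a)) →
  ∀ A1 : MvPolynomial (Fin (4 + 1)) Ω, Fk k 5 A1 → ∀ i1 : Fin r → Fin (4 + 1),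
  (dt D x j0 ε η fun b => D.V x 0 (A1 * lf x j0 (i1 b))) ≠ 0 →
  ∀ (m : ℕ) (t : Fin (m + 1) → Fin (4 + 1)) (P : Fin (m + 1) → Fin (4 + 1) → Ω),
  Hull k x j0 t P → m ≤ r ∧ (m = r →
    (∀ A : MvPolynomial (Fin (4 + 1)) Ω, A.IsHomogeneous 5 → ∀ f,
      D.V x 0 (A * lam t P f) ∈ Hs x η) ∧
    ∀ t' : Fin r → Fin (4 + 1), (∀ b : Fin r, ∀ b' : Fin (m + 1), (b : ℕ) + 1 = b' → t' b = t b') →
      (dt D x j0 ε η fun b => D.V x 0 (A1 * lf x j0 (t' b))) ≠ 0)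

/-- Module WORDB: the traces of all words are in `k`. -/
def WordbStatement : Prop := LocStatement → TaubStatement →
  ∀ (Ω : Type) [Field Ω] [CharZero Ω] (k : Subfield Ω)
  (Γ : Type) [LinearOrderedCommGroupWithZero Γ] (S : Sizes Ω k Γ) (D : D6 Ω)
  (x : Fin (4 + 1) → Ω) (j0 : Fin (4 + 1)), Sit S D x j0 →
  ∀ (s r : ℕ) (η : Fin s → Fin (4 + 1) → Ω), s + r = 3 → (∀ a, Bc D x k (η a)) →
  ∀ (t : Fin (r + 1) → Fin (4 + 1)) (P : Fin (r + 1) → Fin (4 + 1) → Ω), Hull k x j0 t P →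
  ∀ A0 : MvPolynomial (Fin (4 + 1)) Ω, Fk k 5 A0 →
  LinearIndependent Ω (Sum.elim (fun _ : Unit => x)
    (Sum.elim η fun b : Fin r => D.V x 0 (A0 * lf x j0 (t b.succ)))) →
  ∀ a : MvPolynomial (Fin (4 + 1)) Ω → Matrix (Fin r) (Fin r) Ω,
    (∀ A : MvPolynomial (Fin (4 + 1)) Ω, A.IsHomogeneous 5 → ∀ j : Fin r,
      D.V x 0 (A * lf x j0 (t j.succ)) -
        ∑ i : Fin r, a A i j • D.V x 0 (A0 * lf x j0 (t i.succ)) ∈ Hs x η) →
    ∀ l : List (MvPolynomial (Fin (4 + 1)) Ω), (∀ A ∈ l, Fk k 5 A) →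
      Matrix.trace ((l.map a).prod) ∈ k

/-- Module ANNB: quadrics over `k` whose multiples do not move the point. -/
def AnnbStatement : Prop := ∀ (Ω : Type) [Field Ω] [CharZero Ω] (k : Subfield Ω)
  (Γ : Type) [LinearOrderedCommGroupWithZero Γ] (S : Sizes Ω k Γ) (D : D6 Ω)
  (x : Fin (4 + 1) → Ω) (j0 : Fin (4 + 1)), Sit S D x j0 →
  ∀ (s : ℕ) (η : Fin s → Fin (4 + 1) → Ω), s ≤ 1 → (∀ a, Bc D x k (η a)) →
  (LinearIndependent Ω (Sum.elim (fun _ : Unit => x) η)) →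
  ∀ w : MvPolynomial (Fin (4 + 1)) Ω, Fk k 2 w →
    (∀ H : MvPolynomial (Fin (4 + 1)) Ω, H.IsHomogeneous 4 → eval x H = 0 →
      D.V x 0 (w * H) ∈ Hs x η) → eval x w = 0

/-- Module REG: the regular case. -/
def RegStatement : Prop := LocStatement → TaubStatement → HullStatement → W2Statement →
  VanbStatement → WordbStatement → AnnbStatement →
  ∀ (Ω : Type) [Field Ω] [CharZero Ω] (k : Subfield Ω)
  (Γ : Type) [LinearOrderedCommGroupWithZero Γ] (S : Sizes Ω k Γ) (D : D6 Ω)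
  (x : Fin (4 + 1) → Ω) (j0 : Fin (4 + 1)), Sit S D x j0 →
  (∃ A : MvPolynomial (Fin (4 + 1)) Ω, Fk k 5 A ∧ 4 ≤ Module.finrank Ω (EA D x j0 A)) →
  ∃ (s r : ℕ) (η : Fin s → Fin (4 + 1) → Ω) (t : Fin (r + 1) → Fin (4 + 1))
    (P : Fin (r + 1) → Fin (4 + 1) → Ω) (A0 : MvPolynomial (Fin (4 + 1)) Ω),
    GeoA k D x j0 η t P A0

/-- Module EXTA: passage to algebraically closed fields. -/
def ExtaStatement : Prop := C2.LdStatement → C2.DexStatement →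
  ∀ (Ω : Type) [Field Ω] [CharZero Ω] (k : Subfield Ω) (D : D6 Ω) (x : Fin (4 + 1) → Ω)
  (j0 : Fin (4 + 1)) (s r : ℕ) (η : Fin s → Fin (4 + 1) → Ω) (t : Fin (r + 1) → Fin (4 + 1))
  (P : Fin (r + 1) → Fin (4 + 1) → Ω) (A0 : MvPolynomial (Fin (4 + 1)) Ω),
  GeoA k D x j0 η t P A0 →
  ∃ (Ω' : Type) (_ : Field Ω') (_ : CharZero Ω') (_ : IsAlgClosed Ω') (K : Subfield Ω')
    (D' : D6 Ω') (x' : Fin (4 + 1) → Ω') (η' : Fin s → Fin (4 + 1) → Ω')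
    (P' : Fin (r + 1) → Fin (4 + 1) → Ω') (A0' : MvPolynomial (Fin (4 + 1)) Ω'),
    IsAlgClosed K ∧ GeoA K D' x' j0 η' t P' A0'

/-- Module COREA: the matrices (with the equivariance lemma). -/
def CoreaStatement : Prop := ∀ (Ω : Type) [Field Ω] [CharZero Ω] (k : Subfield Ω) (D : D6 Ω)
  (x : Fin (4 + 1) → Ω) (j0 : Fin (4 + 1)) (s r : ℕ) (η : Fin s → Fin (4 + 1) → Ω)
  (t : Fin (r + 1) → Fin (4 + 1)) (P : Fin (r + 1) → Fin (4 + 1) → Ω)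
  (A0 : MvPolynomial (Fin (4 + 1)) Ω), GeoA k D x j0 η t P A0 →
  ∃ a : MvPolynomial (Fin (r + 1)) Ω →ₗ[Ω] Matrix (Fin r) (Fin r) Ω,
    CoreA k (fun i => x (t i)) a

/-- Module ENDA: the algebra of endomorphisms. -/
def EndaStatement : Prop := ∀ (Ω : Type) [Field Ω] [CharZero Ω] [IsAlgClosed Ω]
  (K : Subfield Ω), IsAlgClosed K → ∀ (r : ℕ) (y : Fin (r + 1) → Ω)
  (a : MvPolynomial (Fin (r + 1)) Ω →ₗ[Ω] Matrix (Fin r) (Fin r) Ω), 1 ≤ r →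
  CoreA K y a → PenD K y

/-! ### (B) the singular case over `Ω` -/

/-- Module LINE: no line of small variation. -/
def LineStatement : Prop := ∀ (Ω : Type) [Field Ω] [CharZero Ω] (k : Subfield Ω)
  (Γ : Type) [LinearOrderedCommGroupWithZero Γ] (S : Sizes Ω k Γ) (D : D6 Ω)
  (x : Fin (4 + 1) → Ω) (j0 : Fin (4 + 1)), Sit S D x j0 → Module.finrank Ω (Wsp D x) ≤ 2 →
  ∀ y, LinearIndependent Ω ![x, y] → 3 ≤ Module.finrank Ω (Lines.E1 D x y)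

/-- Module RK1: `w = 1`, all ranks at most 1. -/
def Rk1Statement : Prop := ∀ (Ω : Type) [Field Ω] [CharZero Ω] (k : Subfield Ω) (D : D6 Ω)
  (x : Fin (4 + 1) → Ω) (j0 : Fin (4 + 1)), x j0 = 1 → eval x (D.F 0) = 0 →
  Module.finrank Ω (Wsp D x) = 2 →
  (∀ A : MvPolynomial (Fin (4 + 1)) Ω, Fk k 5 A → Module.finrank Ω (EA D x j0 A) ≤ 3) →
  ∃ y, LinearIndependent Ω ![x, y] ∧ Module.finrank Ω (Lines.E1 D x y) ≤ 2

/-- Module ATK: `w = 0`, all ranks at most 2. -/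
def AtkStatement : Prop := ∀ (Ω : Type) [Field Ω] [CharZero Ω] (k : Subfield Ω) (D : D6 Ω)
  (x : Fin (4 + 1) → Ω) (j0 : Fin (4 + 1)), x j0 = 1 → eval x (D.F 0) = 0 → W0 D x →
  (∀ A : MvPolynomial (Fin (4 + 1)) Ω, Fk k 5 A → Module.finrank Ω (EA D x j0 A) ≤ 3) →
  (∃ y, LinearIndependent Ω ![x, y] ∧ Module.finrank Ω (Lines.E1 D x y) ≤ 2) ∨
  ∃ (t : Fin (2 + 1) → Fin (4 + 1)) (P : Fin (2 + 1) → Fin (4 + 1) → Ω), Cht x j0 t P ∧
    ∀ A : MvPolynomial (Fin (4 + 1)) Ω, A.IsHomogeneous 5 → ∀ f, D.V x 0 (A * lam t P f) = 0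

/-- Module HESS: the Hessian has rank at least 4. -/
def HessStatement : Prop := ∀ (Ω : Type) [Field Ω] [CharZero Ω] (K : Subfield Ω) (D : D6 Ω)
  (x : Fin (4 + 1) → Ω) (j0 : Fin (4 + 1)), x j0 = 1 → eval x (D.F 0) = 0 →
  (∀ I, coeff I (D.F 0) ∈ K) → Rac K → (∃ i, x i ∉ K) →
  ∀ u : Fin 2 → Fin (4 + 1) → Ω, LinearIndependent Ω ![x, u 0, u 1] →
  ¬ ∀ i q, ∑ p, eval x (pderiv q (pderiv p (D.F 0))) * u i p = 0
/-- Module BETA: the plane is integrable (over `Ω` itself). -/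
def BetaStatement : Prop := LocStatement → HessStatement →
  ∀ (Ω : Type) [Field Ω] [CharZero Ω] (k : Subfield Ω)
  (Γ : Type) [LinearOrderedCommGroupWithZero Γ] (S : Sizes Ω k Γ) (D : D6 Ω)
  (x : Fin (4 + 1) → Ω) (j0 : Fin (4 + 1)), Sit S D x j0 → W0 D x →
  (∀ y, LinearIndependent Ω ![x, y] → 3 ≤ Module.finrank Ω (Lines.E1 D x y)) →
  ∀ (t : Fin (2 + 1) → Fin (4 + 1)) (P : Fin (2 + 1) → Fin (4 + 1) → Ω), Cht x j0 t P →
  (∀ A : MvPolynomial (Fin (4 + 1)) Ω, A.IsHomogeneous 5 → ∀ f,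
    D.V x 0 (A * lam t P f) = 0) →
  ∀ A : MvPolynomial (Fin (4 + 1)) Ω, A.IsHomogeneous 5 → ∀ f i,
    D.V (P i) 0 (A * lam t P f) = 0

/-- Module SEAM: the plane type from BETA and LINE. -/
def SeamStatement : Prop := ∀ (Ω : Type) [Field Ω] [CharZero Ω] (k : Subfield Ω)
  (Γ : Type) [LinearOrderedCommGroupWithZero Γ] (S : Sizes Ω k Γ) (D : D6 Ω)
  (x : Fin (4 + 1) → Ω) (j0 : Fin (4 + 1)), Sit S D x j0 → W0 D x →
  (∀ y, LinearIndependent Ω ![x, y] → 3 ≤ Module.finrank Ω (Lines.E1 D x y)) →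
  ∀ (t : Fin (2 + 1) → Fin (4 + 1)) (P : Fin (2 + 1) → Fin (4 + 1) → Ω), Cht x j0 t P →
  (∀ A : MvPolynomial (Fin (4 + 1)) Ω, A.IsHomogeneous 5 → ∀ f,
    D.V x 0 (A * lam t P f) = 0) →
  (∀ A : MvPolynomial (Fin (4 + 1)) Ω, A.IsHomogeneous 5 → ∀ f i,
    D.V (P i) 0 (A * lam t P f) = 0) →
  Pl D x t P

/-! ### finite level and assembly -/

/-- Module HL5S: lines with small variation space. -/
def Hl5Statement : Prop := HL5 4 1 fun _ => 6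

/-- Module ASMA: the regular case is impossible. -/
def AsmaStatement : Prop := C2.LdStatement → C2.DexStatement → LocStatement → TaubStatement →
  HullStatement → W2Statement → VanbStatement → WordbStatement → AnnbStatement → RegStatement →
  ExtaStatement → CoreaStatement → EndaStatement →
  ∀ (Ω : Type) [Field Ω] [CharZero Ω] (k : Subfield Ω)
  (Γ : Type) [LinearOrderedCommGroupWithZero Γ] (S : Sizes Ω k Γ) (D : D6 Ω)
  (x : Fin (4 + 1) → Ω) (j0 : Fin (4 + 1)), Sit S D x j0 →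
  ∀ A : MvPolynomial (Fin (4 + 1)) Ω, Fk k 5 A → Module.finrank Ω (EA D x j0 A) ≤ 3
/-- Module ASM2: the height inequality for sextic threefolds. -/
def Asm2Statement : Prop := C2.LdStatement → C2.DexStatement → LocStatement → TaubStatement →
  HullStatement → W2Statement → VanbStatement → WordbStatement → AnnbStatement → RegStatement →
  ExtaStatement → CoreaStatement → EndaStatement → AsmaStatement → LineStatement →
  Rk1Statement → AtkStatement → HessStatement → BetaStatement → SeamStatement →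
  PlaneTypeStatement → Ultra2Statement → Hl5Statement →
  ∀ j0 : Fin (4 + 1), HBE 4 1 (fun _ => 6) j0

end Pool.Agent.T2
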