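import Pool.Agent.Lib.MP_c7af3c_ag.EDGE.Base

/-!
# MP_c7af3c_ag, project T2: sizes over the ultraproduct, the basic situation
`Ω` is the ultraproduct, `k` the subfield of the elements of bounded height; the places are the
sequences of places, with values in one ordered group `Γ`.
-/

set_option autoImplicit false

namespace Pool.Agent.T2

open MvPolynomial Pool.Agent.Gen Pool.Agent.Sharp Pool.Agent.Edge

/-- Places of `Ω`. The elements of `k` are exactly the elements whose size is at most a product of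
a power of the constant `M` and of powers of sizes of elements of `k`. -/
structure Sizes (Ω : Type) [Field Ω] (k : Subfield Ω) (Γ : Type)
    [LinearOrderedCommGroupWithZero Γ] where
  V : Type
  v : V → Valuation Ω Γ
  M : V → Γ
  one_le : ∀ p, 1 ≤ M p
  mem : ∀ (s : Finset Ω) (C : ℕ) (y : Ω), (∀ b ∈ s, b ∈ k) →
    (∀ p, v p y ≤ M p ^ C * ∏ b ∈ s, max 1 (v p b) ^ C) → y ∈ k

/-- The situation over the ultraproduct: a point of large height which is on no line of the zero
locus, all lines through it of bounded height are excluded. -/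
structure Sit {Ω : Type} [Field Ω] {k : Subfield Ω} {Γ : Type}
    [LinearOrderedCommGroupWithZero Γ] (S : Sizes Ω k Γ) {n c : ℕ} {d : Fin c → ℕ}
    (D : DSys Ω n c d) (x : Fin (n + 1) → Ω) (j0 : Fin (n + 1)) : Prop where
  hj0 : x j0 = 1
  h0 : ∀ m, eval x (D.F m) = 0
  comm : Lines.Comm D
  kF : ∀ m I, coeff I (D.F m) ∈ k
  kalg : ∀ (z : Ω) (p : Polynomial Ω), p ≠ 0 → (∀ i, p.coeff i ∈ k) → p.eval z = 0 → z ∈ k
  xk : ∃ i, x i ∉ k
  hno : NoLine D x
  hdel : ∀ p m I, I.degree = d m → ∀ f, S.v p f ≤ 1 → S.v p (D.del m I f) ≤ S.M p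
  hline : ∀ y, LinearIndependent Ω ![x, y] → 6 ≤ Module.finrank Ω (Lines.SL D x y)

/-- Finite level: a line through the point, with small variation space, has bounded height. -/
def HL5 (n c : ℕ) (d : Fin c → ℕ) : Prop :=
  ∃ C : ℕ, ∀ (L : Type) [Field L] [CharZero L] (D : DSys L n c d), Lines.Comm D →
    ∀ x y : Fin (n + 1) → L, LinearIndependent L ![x, y] → (∀ m, eval x (D.F m) = 0) →
    Module.finrank L (Lines.SL D x y) ≤ 5 → ∀ S : PlaceSys L, S.IsProd → ∀ B : S.V → ℕ,
    BD S D B → Sharp.hL S x y ≤ C * tot S B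

/-- Module ULTRA2: a failure of the height inequality gives the ultraproduct situation. -/
def Ultra2Statement : Prop := ∀ (n c : ℕ) (d : Fin c → ℕ) (j0 : Fin (n + 1)),
  HL5 n c d → ¬ HBE n c d j0 →
  ∃ (Ω : Type) (_ : Field Ω) (_ : CharZero Ω) (k : Subfield Ω) (Γ : Type)
    (_ : LinearOrderedCommGroupWithZero Γ) (S : Sizes Ω k Γ) (D : DSys Ω n c d)
    (x : Fin (n + 1) → Ω), Sit S D x j0

end Pool.Agent.T2
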