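import Pool.Agent.Lib.MP_c7af3c_ag.T2.Sizes

/-!
# MP_c7af3c_ag, project T2 (sextic threefolds): definitions
See T2/Paper.md. One form of degree 6 in five variables. `V(G) = D.V x 0 G` is `D_G x`,
`D.V (P i) 0 G` is `D_G (P i)`.
-/

set_option autoImplicit false

namespace Pool.Agent.T2

open MvPolynomial Pool.Agent.Gen Pool.Agent.Sharp Pool.Agent.Edge

/-- one form of degree 6 in five variables, and the derivations dual to its coefficients -/
abbrev D6 (Ω : Type) [Field Ω] : Type := DSys Ω 4 1 fun _ => 6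

/-- a form of degree `d` with coefficients in `k` -/
def Fk {Ω σ : Type} [Field Ω] (k : Subfield Ω) (d : ℕ) (G : MvPolynomial σ Ω) : Prop :=
  G.IsHomogeneous d ∧ ∀ I, coeff I G ∈ k

/-- `k` is relatively algebraically closed -/
def Rac {Ω : Type} [Field Ω] (k : Subfield Ω) : Prop :=
  ∀ (z : Ω) (p : Polynomial Ω), p ≠ 0 → (∀ i, p.coeff i ∈ k) → p.eval z = 0 → z ∈ k

/-- the linear form with the coefficients `a` -/
noncomputable def lnf {Ω σ : Type} [Field Ω] [Fintype σ] (a : σ → Ω) : MvPolynomial σ Ω :=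
  ∑ i, C (a i) * X i

/-- `e * g = sum_i (e X)_i g_i` in three variables -/
noncomputable def st {Ω : Type} [Field Ω] (e : Matrix (Fin 3) (Fin 3) Ω)
    (g : MvPolynomial (Fin 3) Ω) : MvPolynomial (Fin 3) Ω :=
  ∑ i, ∑ j, C (e i j) * X j * pderiv i g

/-- the substitution `X_i -> sum_j g_ij X_j` -/
noncomputable def sb {Ω : Type} [Field Ω] (g : Matrix (Fin 3) (Fin 3) Ω)
    (f : MvPolynomial (Fin 3) Ω) : MvPolynomial (Fin 3) Ω :=
  aeval (fun i => ∑ j, C (g i j) * X j) f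

/-- the functional with the integral coefficients `c` -/
noncomputable def fnl {Ω : Type} [Field Ω] (c : (Fin 3 →₀ ℕ) → ℤ) (g : MvPolynomial (Fin 3) Ω) : Ω :=
  ∑ I ∈ g.support, (c I : Ω) * coeff I g

/-- the multiples `B A`, `A` a form of degree `d` -/
noncomputable def mS {Ω : Type} [Field Ω] (B : MvPolynomial (Fin 3) Ω) (d : ℕ) :
    Submodule Ω (MvPolynomial (Fin 3) Ω) :=
  (homogeneousSubmodule (Fin 3) Ω d).map (LinearMap.mulLeft Ω B)

section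

variable {Ω : Type} [Field Ω] (D : D6 Ω) (x : Fin (4 + 1) → Ω) (j0 : Fin (4 + 1))

/-- the span of `x` and the `W(p,q)` -/
noncomputable def Wsp : Submodule Ω (Fin (4 + 1) → Ω) :=
  Submodule.span Ω ({x} ∪ {u | ∃ p q, u = WT D x p q})

/-- the span of `x`, the `W(p,q)` and the `V(A l)`, `l` a linear form vanishing at `x` -/
noncomputable def EA (A : MvPolynomial (Fin (4 + 1)) Ω) : Submodule Ω (Fin (4 + 1) → Ω) :=
  Submodule.span Ω ({x} ∪ {u | ∃ p q, u = WT D x p q} ∪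
    {u | ∃ i, u = D.V x 0 (A * lf x j0 i)})

/-- the span of `x` and the columns `η` -/
def Hs {s : ℕ} (η : Fin s → Fin (4 + 1) → Ω) : Submodule Ω (Fin (4 + 1) → Ω) :=
  Submodule.span Ω (insert x (Set.range η))

/-- bounded columns -/
def Bc (k : Subfield Ω) (u : Fin (4 + 1) → Ω) : Prop :=
  (∃ p q, u = WT D x p q) ∨ ∃ G, Fk k 6 G ∧ eval x G = 0 ∧ u = D.V x 0 G

/-- the determinant of `x`, `s` columns `η`, `r` columns `w` and the column `V(X_j0^6)` -/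
noncomputable def dt {s r : ℕ} (ε : (Unit ⊕ (Fin s ⊕ Fin r)) ⊕ Fin 1 ≃ Fin (4 + 1))
    (η : Fin s → Fin (4 + 1) → Ω) (w : Fin r → Fin (4 + 1) → Ω) : Ω :=
  Matrix.det (Matrix.of fun a k => colU D x (Sum.elim (fun _ : Unit => x) (Sum.elim η w)) j0 k (ε a))

/-- the contracted determinant of one block: the coordinate `i` of an `(r+1)`-vector divisible
by `x` -/
noncomputable def tauB {s r : ℕ} (ε : (Unit ⊕ (Fin s ⊕ Fin r)) ⊕ Fin 1 ≃ Fin (4 + 1))
    (η : Fin s → Fin (4 + 1) → Ω) (A : MvPolynomial (Fin (4 + 1)) Ω)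
    (i : Fin (r + 1) → Fin (4 + 1)) : Ω :=
  ∑ a : Fin (r + 1), (-1) ^ (a : ℕ) * x (i a) *
    dt D x j0 ε η fun b => D.V x 0 (A * lf x j0 (i (a.succAbove b)))

end

section

variable {Ω : Type} [Field Ω]

/-- the form `X_f - sum_i P_i(f) X_(t i)` -/
noncomputable def lam {m : ℕ} (t : Fin m → Fin (4 + 1)) (P : Fin m → Fin (4 + 1) → Ω)
    (f : Fin (4 + 1)) : MvPolynomial (Fin (4 + 1)) Ω :=
  X f - ∑ i, C (P i f) * X (t i)

/-- a linear space through `x` in the chart `t` -/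
structure Cht (x : Fin (4 + 1) → Ω) (j0 : Fin (4 + 1)) {m : ℕ} (t : Fin (m + 1) → Fin (4 + 1))
    (P : Fin (m + 1) → Fin (4 + 1) → Ω) : Prop where
  t0 : t 0 = j0
  Pt : ∀ i j, P i (t j) = if i = j then 1 else 0
  xP : ∀ f, x f = ∑ i, P i f * x (t i)

/-- the hull of `x` over `k` in the chart `t` -/
structure Hull (k : Subfield Ω) (x : Fin (4 + 1) → Ω) (j0 : Fin (4 + 1)) {m : ℕ}
    (t : Fin (m + 1) → Fin (4 + 1)) (P : Fin (m + 1) → Fin (4 + 1) → Ω) : Prop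
    extends Cht x j0 t P where
  Pk : ∀ i f, P i f ∈ k
  yk : ∀ a : Fin (m + 1) → Ω, (∀ i, a i ∈ k) → ∑ i, a i * x (t i) = 0 → a = 0

/-- The regular situation: `r = 3`, or `r = 2` and one more column `η`. -/
structure GeoA (k : Subfield Ω) (D : D6 Ω) (x : Fin (4 + 1) → Ω) (j0 : Fin (4 + 1)) {s r : ℕ}
    (η : Fin s → Fin (4 + 1) → Ω) (t : Fin (r + 1) → Fin (4 + 1))
    (P : Fin (r + 1) → Fin (4 + 1) → Ω) (A0 : MvPolynomial (Fin (4 + 1)) Ω) : Prop where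
  hj0 : x j0 = 1
  h0 : eval x (D.F 0) = 0
  kF : ∀ I, coeff I (D.F 0) ∈ k
  kalg : Rac k
  sr : s + r = 3
  r2 : 2 ≤ r
  hull : Hull k x j0 t P
  gη : ∀ i, ∑ p, eval x (pderiv p (D.F 0)) * η i p = 0
  w : ∀ p q, WT D x p q ∈ Hs x η
  van : ∀ A : MvPolynomial (Fin (4 + 1)) Ω, A.IsHomogeneous 5 → ∀ f,
    D.V x 0 (A * lam t P f) ∈ Hs x η
  A0k : Fk k 5 A0
  bas : LinearIndependent Ω (Sum.elim (fun _ : Unit => x)
    (Sum.elim η fun b : Fin r => D.V x 0 (A0 * lf x j0 (t b.succ))))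
  word : ∀ a : MvPolynomial (Fin (4 + 1)) Ω → Matrix (Fin r) (Fin r) Ω,
    (∀ A : MvPolynomial (Fin (4 + 1)) Ω, A.IsHomogeneous 5 → ∀ j : Fin r,
      D.V x 0 (A * lf x j0 (t j.succ)) -
        ∑ i : Fin r, a A i j • D.V x 0 (A0 * lf x j0 (t i.succ)) ∈ Hs x η) →
    ∀ l : List (MvPolynomial (Fin (4 + 1)) Ω), (∀ A ∈ l, Fk k 5 A) →
      Matrix.trace ((l.map a).prod) ∈ k
  ann : ∀ w : MvPolynomial (Fin (4 + 1)) Ω, Fk k 2 w →
    (∀ H : MvPolynomial (Fin (4 + 1)) Ω, H.IsHomogeneous 4 → eval x H = 0 →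
      D.V x 0 (w * H) ∈ Hs x η) → eval x w = 0

/-- The algebraic core of the regular situation: `a A` is the matrix of `φ_(A0)^(-1) φ_A` in the
basis `X_i - y_i X_0` of the linear forms which vanish at `y`. -/
structure CoreA (k : Subfield Ω) {r : ℕ} (y : Fin (r + 1) → Ω)
    (a : MvPolynomial (Fin (r + 1)) Ω →ₗ[Ω] Matrix (Fin r) (Fin r) Ω) : Prop where
  y0 : y 0 = 1
  yk : ∀ b : Fin (r + 1) → Ω, (∀ i, b i ∈ k) → ∑ i, b i * y i = 0 → b = 0
  one : ∃ A0, Fk k 5 A0 ∧ a A0 = 1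
  comm : ∀ C' : MvPolynomial (Fin (r + 1)) Ω, C'.IsHomogeneous 4 → ∀ i j m : Fin r,
    a ((X i.succ - C (y i.succ) * X 0) * C') m j = a ((X j.succ - C (y j.succ) * X 0) * C') m i
  word : ∀ l : List (MvPolynomial (Fin (r + 1)) Ω), (∀ A ∈ l, Fk k 5 A) →
    Matrix.trace ((l.map a).prod) ∈ k
  eqv : ∀ b : Fin (r + 1) → Ω, (∀ i, b i ∈ k) → b ≠ 0 → ∀ τ : Fin r → Ω,
    (∀ C' : MvPolynomial (Fin (r + 1)) Ω, C'.IsHomogeneous 4 → ∀ j,
      ∑ m, τ m * a (lnf b * C') m j = 0) → τ = 0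
  ann : ∀ w : MvPolynomial (Fin (r + 1)) Ω, Fk k 2 w →
    (∀ C' : MvPolynomial (Fin (r + 1)) Ω, C'.IsHomogeneous 3 → a (w * C') = 0) → eval y w = 0

/-- the input of helper49's theorem `nopencil` -/
def PenD (k : Subfield Ω) {r : ℕ} (y : Fin (r + 1) → Ω) : Prop :=
  ∃ (N : ℕ) (ι : Fin N → Fin r → Fin (r + 1) → Ω) (u : Fin N → Ω),
    (∀ l e j, ι l e j ∈ k) ∧ (∀ e, ∑ j, (∑ l, u l * ι l e j) * y j = 0) ∧
    (LinearIndependent Ω fun e j => ∑ l, u l * ι l e j) ∧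
    ∀ l l' e e', (∑ j, ι l e j * y j) * (∑ j, ι l' e' j * y j) =
      (∑ j, ι l e' j * y j) * (∑ j, ι l' e j * y j)

/-- The moving plane: all `V(λ A)`, `λ` a linear form vanishing on the plane, are zero, and there
is no line of small variation in it (`p2`). -/
structure PlQ (k : Subfield Ω) (D : D6 Ω) (x : Fin (4 + 1) → Ω) (j0 : Fin (4 + 1))
    (t : Fin (2 + 1) → Fin (4 + 1)) (P : Fin (2 + 1) → Fin (4 + 1) → Ω) : Prop where
  hj0 : x j0 = 1
  h0 : eval x (D.F 0) = 0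
  comm : Lines.Comm D
  kF : ∀ I, coeff I (D.F 0) ∈ k
  kalg : Rac k
  xk : ∃ i, x i ∉ k
  w0 : W0 D x
  ch : Cht x j0 t P
  van : ∀ A : MvPolynomial (Fin (4 + 1)) Ω, A.IsHomogeneous 5 → ∀ f,
    D.V x 0 (A * lam t P f) = 0
  p2 : ∀ a : Fin (2 + 1) → Ω, a ≠ 0 → ∑ i, a i * x (t i) = 0 →
    2 ≤ Module.finrank Ω (Submodule.span Ω {u | ∃ A : MvPolynomial (Fin (4 + 1)) Ω,
      A.IsHomogeneous 5 ∧ u = D.V x 0 (A * rename t (lnf a))})

/-- The plane is equivariant and integrable. -/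
structure PlI (k : Subfield Ω) (D : D6 Ω) (x : Fin (4 + 1) → Ω) (j0 : Fin (4 + 1))
    (t : Fin (2 + 1) → Fin (4 + 1)) (P : Fin (2 + 1) → Fin (4 + 1) → Ω) : Prop
    extends PlQ k D x j0 t P where
  eqp : ∀ i p q, WT D (P i) p q ∈ Submodule.span Ω (Set.range P)
  int : ∀ A : MvPolynomial (Fin (4 + 1)) Ω, A.IsHomogeneous 5 → ∀ f i,
    D.V (P i) 0 (A * lam t P f) = 0

/-- the forms `G` of degree 6 on the plane such that `D_G` fixes `x` and the plane -/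
noncomputable def Rk (D : D6 Ω) (x : Fin (4 + 1) → Ω) (t : Fin (2 + 1) → Fin (4 + 1))
    (P : Fin (2 + 1) → Fin (4 + 1) → Ω) : Submodule Ω (MvPolynomial (Fin 3) Ω) where
  carrier := {G | G.IsHomogeneous 6 ∧ D.V x 0 (rename t G) = 0 ∧
    ∀ i, D.V (P i) 0 (rename t G) = 0}
  zero_mem' := ⟨isHomogeneous_zero _ _ _, by rw [map_zero, map_zero],
    fun i => by rw [map_zero, map_zero]⟩
  add_mem' := fun {a b} ha hb => ⟨ha.1.add hb.1, by rw [map_add, map_add, ha.2.1, hb.2.1, add_zero],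
    fun i => by rw [map_add, map_add, ha.2.2 i, hb.2.2 i, add_zero]⟩
  smul_mem' := fun c a ha => ⟨by
      have h := (isHomogeneous_C (Fin 3) c).mul ha.1
      rw [zero_add] at h
      rw [smul_eq_C_mul]
      exact h, by rw [map_smul, map_smul, ha.2.1, smul_zero],
    fun i => by rw [map_smul, map_smul, ha.2.2 i, smul_zero]⟩

/-- Data for the count of module CONF: after the substitution `g` the form `f` is killed by `N`
integral functionals which are preserved by the subspace `T` of `gl_3`; either there are too many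
of them, or `T` fixes the point `y = g e_0`. -/
def PatD (f : MvPolynomial (Fin 3) Ω) (y : Fin 3 → Ω) : Prop :=
  ∃ (g : Matrix (Fin 3) (Fin 3) Ω) (N : ℕ) (c : Fin N → (Fin 3 →₀ ℕ) → ℤ)
    (T : Submodule Ω (Matrix (Fin 3) (Fin 3) Ω)), g.det ≠ 0 ∧
    (LinearIndependent Ω fun (i : Fin N) (I : {I : Fin 3 →₀ ℕ // I.degree = 6}) =>
      ((c i I.1 : ℤ) : Ω)) ∧
    (∀ i, fnl (c i) (sb g f) = 0) ∧ (∀ e ∈ T, ∀ i, fnl (c i) (st e (sb g f)) = 0) ∧
    15 ≤ N + Module.finrank Ω T ∧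
    (15 < N + Module.finrank Ω T ∨
      ((∃ a, ∀ i, y i = a * g i 0) ∧ ∀ e ∈ T, ∀ i, i ≠ 0 → e i 0 = 0))

end

end Pool.Agent.T2
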