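import Pool.Agent.Lib.MP_c7af3c_ag.T2.Base
import Pool.Agent.Lib.MP_c7af3c_ag.EDGE.H65.NoFactor
import Pool.Agent.Lib.MP_c7af3c_ag.SHARP.H75.Key

/-!
# MP_c7af3c_ag, project T2: the integrable plane, definitions
`K` is a field of characteristic 0, `n = 4`, `c = 1`, degree 6. The structure `Pl` is the seam:
it is the output of the rows BETA, LINE and the input of the plane type (IfaceB.lean, PaperB.md).
-/

set_option autoImplicit false

namespace Pool.Agent.T2

open MvPolynomial Pool.Agent.Gen Pool.Agent.Sharp Pool.Agent.Edge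
open Pool.Agent.Sharp.H75 (dco DG af)
open Pool.Agent.Edge.H65 (ssub)

/-! ### definitions -/

section defs

variable {K : Type} [Field K]

/-- the derivation `D_G` -/
noncomputable def der (D : D6 K) (G : MvPolynomial (Fin 5) K) : Derivation ℤ K K :=
  DG D fun _ => G

variable (K) in
/-- the forms of degree `r` in three variables -/
abbrev S3 (r : ℕ) : Submodule K (MvPolynomial (Fin 3) K) := homogeneousSubmodule (Fin 3) K r

/-- the multiples of `a` by the forms of degree `r` -/
noncomputable def mulS (a : MvPolynomial (Fin 3) K) (r : ℕ) :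
    Submodule K (MvPolynomial (Fin 3) K) :=
  (S3 K r).map (LinearMap.mulLeft K a)

theorem mem_mulS {a g : MvPolynomial (Fin 3) K} {r : ℕ} :
    g ∈ mulS a r ↔ ∃ b, b.IsHomogeneous r ∧ a * b = g := Iff.rfl

/-- The plane with the frame `P` through `x`, normalised at the coordinates `t`. The forms which
vanish on the plane move neither the point nor the plane; the variation `W` is zero; the forms
which vanish on a line through the point have a variation of rank at least two. -/
structure Pl (D : D6 K) (x : Fin 5 → K) (t : Fin 3 → Fin 5) (P : Fin 3 → Fin 5 → K) : Prop where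
  comm : Lines.Comm D
  h0 : eval x (D.F 0) = 0
  w0 : W0 D x
  inj : Function.Injective t
  Pt : ∀ i j, P i (t j) = if i = j then 1 else 0
  x0 : x (t 0) = 1
  xP : ∀ f, x f = ∑ i, P i f * x (t i)
  int : ∀ G : MvPolynomial (Fin 5) K, G.IsHomogeneous 6 → ssub P G = 0 →
    D.V x 0 G = 0 ∧ ∀ i, D.V (P i) 0 G = 0
  ln : ∀ y κ : Fin 5 → K, LinearIndependent K ![x, y] →
    ∃ G : MvPolynomial (Fin 5) K, G.IsHomogeneous 6 ∧ lineP G x y = 0 ∧
      D.V x 0 G ∉ Submodule.span K {x, κ}

/-- The plane type over an algebraically closed field. -/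
structure PlA (k : Subfield K) (D : D6 K) (x : Fin 5 → K) (t : Fin 3 → Fin 5)
    (P : Fin 3 → Fin 5 → K) : Prop extends Pl D x t P where
  kF : ∀ I, coeff I (D.F 0) ∈ k
  kalg : ∀ (z : K) (p : Polynomial K), p ≠ 0 → (∀ i, p.coeff i ∈ k) → p.eval z = 0 → z ∈ k
  xk : ∃ i, x i ∉ k

/-- the forms on the plane which move neither the point nor the plane -/
noncomputable def R6 (D : D6 K) (x : Fin 5 → K) (t : Fin 3 → Fin 5) (P : Fin 3 → Fin 5 → K) :
    Submodule K (MvPolynomial (Fin 3) K) where
  carrier := {g | g.IsHomogeneous 6 ∧ D.V x 0 (rename t g) = 0 ∧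
    ∀ i, D.V (P i) 0 (rename t g) = 0}
  add_mem' := by
    rintro a b ⟨ha, ha1, ha2⟩ ⟨hb, hb1, hb2⟩
    refine ⟨ha.add hb, ?_, fun i => ?_⟩
    · rw [map_add, map_add, ha1, hb1, add_zero]
    · rw [map_add, map_add, ha2, hb2, add_zero]
  zero_mem' := ⟨isHomogeneous_zero _ _ _, by rw [map_zero, map_zero], fun i => by
    rw [map_zero, map_zero]⟩
  smul_mem' := by
    rintro c a ⟨ha, ha1, ha2⟩
    refine ⟨(S3 K 6).smul_mem c ha, ?_, fun i => ?_⟩
    · rw [map_smul, map_smul, ha1, smul_zero]
    · rw [map_smul, map_smul, ha2, smul_zero]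

/-- the properties of `R6` used in the algebraic part -/
structure R20 (R : Submodule K (MvPolynomial (Fin 3) K)) : Prop where
  le : R ≤ S3 K 6
  dim : Module.finrank K R = 20
  line : ∀ z : MvPolynomial (Fin 3) K, z.IsHomogeneous 1 → z ≠ 0 →
    24 ≤ Module.finrank K (R ⊔ mulS z 5 : Submodule K (MvPolynomial (Fin 3) K))

/-- the matrix of `E` in the frame `P` (column convention: `E P_i = ∑ j, mat j i • P_j` modulo the
other coordinates) -/
def mat (t : Fin 3 → Fin 5) (P : Fin 3 → Fin 5 → K) (E : Fin 5 → Fin 5 → K) :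
    Fin 3 → Fin 3 → K :=
  fun j i => ∑ q, E (t j) q * P i q

/-- the infinitesimal motions `e` of the plane with `(e * F)|plane` in `q S^4` -/
noncomputable def kk (D : D6 K) (P : Fin 3 → Fin 5 → K) (q : MvPolynomial (Fin 3) K) :
    Submodule K (Fin 3 → Fin 5 → K) where
  carrier := {e | ∑ j, X j * ∑ p, C (e j p) * ssub P (pderiv p (D.F 0)) ∈ mulS q 4}
  add_mem' := by
    intro e e' he he'
    have h : ∑ j, X j * ∑ p, C ((e + e') j p) * ssub P (pderiv p (D.F 0)) =
        (∑ j, X j * ∑ p, C (e j p) * ssub P (pderiv p (D.F 0))) +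
        ∑ j, X j * ∑ p, C (e' j p) * ssub P (pderiv p (D.F 0)) := by
      simp only [Pi.add_apply, map_add, add_mul, Finset.sum_add_distrib, mul_add]
    change _ ∈ mulS q 4
    rw [h]
    exact (mulS q 4).add_mem he he'
  zero_mem' := by
    have h : ∑ j : Fin 3, X j * ∑ p : Fin 5, C ((0 : Fin 3 → Fin 5 → K) j p) *
        ssub P (pderiv p (D.F 0)) = 0 := by
      simp
    change _ ∈ mulS q 4
    rw [h]
    exact (mulS q 4).zero_mem
  smul_mem' := by
    intro c e he
    have h : ∑ j, X j * ∑ p, C ((c • e) j p) * ssub P (pderiv p (D.F 0)) =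
        c • ∑ j, X j * ∑ p, C (e j p) * ssub P (pderiv p (D.F 0)) := by
      rw [Finset.smul_sum]
      refine Finset.sum_congr rfl fun j _ => ?_
      rw [← mul_smul_comm, Finset.smul_sum]
      congr 1
      refine Finset.sum_congr rfl fun p _ => ?_
      rw [Pi.smul_apply, Pi.smul_apply, smul_eq_mul, map_mul, smul_eq_C_mul, mul_assoc]
    change _ ∈ mulS q 4
    rw [h]
    exact (mulS q 4).smul_mem c he

/-- the data of a configuration with integer coefficients -/
structure Cfg (q f : MvPolynomial (Fin 3) K) (y : Fin 3 → K) (g : Fin 3 → Fin 3 → K)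
    (q0 f0 : MvPolynomial (Fin 3) ℤ) (y0 : Fin 3 → ℤ) (a b : K) : Prop where
  gi : LinearIndependent K g
  a0 : a ≠ 0
  hq : ssub g q = C a * MvPolynomial.map (Int.castRingHom K) q0
  hf : ssub g f - MvPolynomial.map (Int.castRingHom K) f0 ∈
    mulS (MvPolynomial.map (Int.castRingHom K) q0) 4
  hy : ∀ j, y j = b * ∑ i, (y0 i : K) * g i j

/-- a space of matrices which fix the point `y`, the conic `q` and `f` modulo `q` -/
structure Stb (q f : MvPolynomial (Fin 3) K) (y : Fin 3 → K)
    (M : Submodule K (Fin 3 → Fin 3 → K)) : Prop where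
  two : 2 ≤ Module.finrank K M
  fy : ∀ L ∈ M, ∃ c, ∀ j, ∑ i, L j i * y i = c * y j
  fq : ∀ L ∈ M, ∃ c, af L q = C c * q
  ff : ∀ L ∈ M, af L f ∈ mulS q 4

end defs

end Pool.Agent.T2
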